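import Pool.Agent.W547.GHX.Defs
import Pool.Agent.W721.FF.GHTS

/-!
# From `T` to the total cohomology, complex spaces
-/

set_option autoImplicit false

open Matrix Finset Module

namespace Pool.Agent.W538.GX

open Pool.Agent.W544.PG Pool.Agent.W544.FF Pool.Agent.W338.PG.Ght Pool.Agent.W352.PG.Ghtp
open Pool.Agent.W143.PG Pool.Agent.W547.GHX

noncomputable section

variable {n s m k : ℕ}

variable {q : Fin m → Fin s ⊕ Fin k} {ε : Fin k → Fin m}

/-- re-insertion, complex -/
def rhoC (q : Fin m → Fin s ⊕ Fin k) :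
    ((Fin k → Fin n) → ℂ) →ₗ[ℂ] ((Fin m → Fin s ⊕ Fin n) → ℂ) where
  toFun g J := ∑ K, if mrg q K = J then g K else 0
  map_add' a b := by
    funext J
    simp only [Pi.add_apply, ← sum_add_distrib]
    refine sum_congr rfl fun K _ => ?_
    split_ifs <;> simp
  map_smul' c a := by
    funext J
    simp only [Pi.smul_apply, smul_eq_mul, mul_sum, RingHom.id_apply]
    refine sum_congr rfl fun K _ => ?_
    split_ifs <;> simp

theorem rhoC_mrg (h : Pt q ε) (g : (Fin k → Fin n) → ℂ) (K : Fin k → Fin n) :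
    rhoC q g (mrg q K) = g K := by
  show (∑ K', if mrg q K' = mrg q K then g K' else 0) = g K
  rw [sum_eq_single K (fun K' _ hK => if_neg fun he => hK (mrg_inj h he))
    (fun hK => absurd (mem_univ _) hK), if_pos rfl]

theorem rhoC_not (g : (Fin k → Fin n) → ℂ) (J : Fin m → Fin s ⊕ Fin n)
    (h : ∀ K, mrg q K ≠ J) : rhoC q g J = 0 :=
  sum_eq_zero fun K _ => if_neg (h K)

theorem rhoC_cx (q : Fin m → Fin s ⊕ Fin k) (g : (Fin k → Fin n) → ℚ) :
    rhoC q (fun K => (g K : ℂ)) = fun J => ((rho q g J : ℚ) : ℂ) := by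
  funext J
  show (∑ K, if mrg q K = J then (g K : ℂ) else 0) =
    ((∑ K, if mrg q K = J then g K else 0 : ℚ) : ℂ)
  push_cast
  refine sum_congr rfl fun K _ => ?_
  split_ifs <;> simp

theorem rhoC_cspN {W : Submodule ℚ ((Fin k → Fin n) → ℚ)}
    {W' : Submodule ℚ ((Fin m → Fin s ⊕ Fin n) → ℚ)} (h : ∀ g ∈ W, rho q g ∈ W')
    {g : (Fin k → Fin n) → ℂ} (hg : g ∈ cspN W) : rhoC q g ∈ cspN W' := by
  have key : (cspN W).map (rhoC q) ≤ cspN W' := by
    unfold cspN
    rw [Submodule.map_span_le]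
    rintro _ ⟨w, hw, rfl⟩
    rw [rhoC_cx]
    exact Submodule.subset_span ⟨_, h w hw, rfl⟩
  exact key ⟨g, hg, rfl⟩

theorem top_cspN {X : Type} [Fintype X] [DecidableEq X] {W : Submodule ℚ (X → ℚ)}
    (h : ∀ g, g ∈ W) (g : X → ℂ) : g ∈ cspN W := by
  have h1 : g = ∑ x, g x • (fun J => (((Pi.single x 1 : X → ℚ) J : ℚ) : ℂ)) := by
    funext J
    rw [Finset.sum_apply, sum_eq_single J]
    · simp
    · intro x _ hx
      rw [Pi.smul_apply, Pi.single_eq_of_ne (Ne.symm hx)]
      simp
    · intro hJ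
      exact absurd (mem_univ _) hJ
  rw [h1]
  refine Submodule.sum_mem _ fun x _ => Submodule.smul_mem _ _ ?_
  exact Submodule.subset_span ⟨_, h _, rfl⟩

theorem act_commZ (h : Pt q ε) (Z : Matrix (Fin n) (Fin n) ℂ)
    (w : (Fin m → Fin s ⊕ Fin n) → ℂ) :
    act Z (fun K : Fin k → Fin n => w (mrg q K)) =
      fun K => act (fromBlocks 0 0 0 Z : Matrix (Fin s ⊕ Fin n) (Fin s ⊕ Fin n) ℂ) w
        (mrg q K) := by
  funext K
  unfold act
  refine Fintype.sum_of_injective ε h.mono.injective _ _ (fun i hi => ?_) (fun i' => ?_)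
  · refine sum_eq_zero fun l _ => ?_
    have h1 : (fromBlocks 0 0 0 Z : Matrix (Fin s ⊕ Fin n) (Fin s ⊕ Fin n) ℂ) l
        (mrg q K i) = 0 := by
      unfold mrg
      rcases hq : q i with a | i'
      · rw [Sum.map_inl]
        rcases l with l | l
        · rw [fromBlocks_apply₁₁]; rfl
        · rw [fromBlocks_apply₂₁]; rfl
      · exact absurd ⟨i', h.eq i i' hq⟩ hi
    rw [h1, zero_mul]
  · rw [Fintype.sum_sum_type]
    have h1 : ∀ l : Fin s, (fromBlocks 0 0 0 Z : Matrix (Fin s ⊕ Fin n) (Fin s ⊕ Fin n) ℂ)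
        (Sum.inl l) (mrg q K (ε i')) = 0 := fun l => by
      rw [mrg_e h]
      rw [fromBlocks_apply₁₂]
      rfl
    have h2 : ∀ l : Fin n, (fromBlocks 0 0 0 Z : Matrix (Fin s ⊕ Fin n) (Fin s ⊕ Fin n) ℂ)
        (Sum.inr l) (mrg q K (ε i')) = Z l (K i') := fun l => by
      rw [mrg_e h]
      rw [fromBlocks_apply₂₂]
    simp only [h1, h2, zero_mul, sum_const_zero, zero_add, mrg_update h]

theorem ghtc : S_ghtc := by
  intro n r s m b c j T cc d cd a f p H hfa M hMf hMZ hMs hMc hMa w hw
  classical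
  -- the parts of `w`
  have hsum : w = ∑ q' : Fin m → Option (Fin s), fun J =>
      if (fun i => Sum.elim some (fun _ => none) (J i)) = q' then w J else 0 := by
    funext J
    rw [Finset.sum_apply, Finset.sum_ite_eq, if_pos (mem_univ _)]
  rw [hsum]
  refine Submodule.sum_mem _ fun q' _ => ?_
  obtain ⟨k, q, ε, h, hq'⟩ := pt_exists q'
  have hpart : (fun J => if (fun i => Sum.elim some (fun _ => none) (J i)) = q' then w J else 0) =
      rhoC q (fun K => w (mrg q K)) := by
    funext J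
    by_cases hJ : ∃ K, mrg q K = J
    · obtain ⟨K, rfl⟩ := hJ
      rw [rhoC_mrg h, if_pos]
      funext i
      rw [hq' i]
      unfold mrg
      rcases q i with a | i' <;> rfl
    · rw [rhoC_not _ _ fun K hK => hJ ⟨K, hK⟩, if_neg]
      intro he
      have h1 : ∀ i', ∃ c, J (ε i') = Sum.inr c := by
        intro i'
        have h2 := congrFun he (ε i')
        rw [hq' (ε i'), h.qe, Sum.elim_inr] at h2
        rcases hJi : J (ε i') with a | a
        · rw [hJi] at h2
          exact absurd h2 (by simp)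
        · exact ⟨a, rfl⟩
      choose K hK using h1
      refine hJ ⟨K, funext fun i => ?_⟩
      unfold mrg
      rcases hq : q i with b | i'
      · have h2 := congrFun he i
        rw [hq' i, hq, Sum.elim_inl] at h2
        rcases hJi : J i with a | a
        · rw [hJi, Sum.elim_inl] at h2
          rw [Option.some_injective _ h2]
          rfl
        · rw [hJi] at h2
          exact absurd h2 (by simp)
      · rw [← h.eq i i' hq, hK]
        rfl
  rw [hpart]
  by_cases hz : ∀ w₁ ∈ M, ∀ K : Fin k → Fin n, w₁ (mrg q K) = 0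
  · have h1 : (fun K : Fin k → Fin n => w (mrg q K)) = 0 := funext fun K => hz w hw K
    rw [h1, map_zero]
    exact Submodule.zero_mem _
  push Not at hz
  obtain ⟨w₁, hw₁, K₁, hK₁⟩ := hz
  obtain ⟨hcol, hc, hkp⟩ := hMc w₁ hw₁ _ hK₁
  have hd : ∀ i b, q i = Sum.inl b → d b = a i := by
    intro i b hb
    have h1 := hcol i
    unfold mrg at h1
    rw [hb] at h1
    exact h1
  have hcK : ∀ i', cc (K₁ i') = a (ε i') := by
    intro i'
    have h1 := hcol (ε i')
    rw [mrg_e h] at h1
    exact h1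
  have hcard : (univ.filter fun i => (mrg q K₁ i).isRight = true).card = k := by
    have h1 : (univ.filter fun i => (mrg q K₁ i).isRight = true) = univ.image ε := by
      ext i
      rw [mem_filter, mem_image]
      constructor
      · rintro ⟨-, hi⟩
        unfold mrg at hi
        rcases hq : q i with b | i'
        · rw [hq] at hi
          exact absurd hi (by simp)
        · exact ⟨i', mem_univ _, h.eq i i' hq⟩
      · rintro ⟨i', -, rfl⟩
        refine ⟨mem_univ _, ?_⟩
        rw [mrg_e h]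
        rfl
    rw [h1, card_image_of_injective _ h.mono.injective, card_univ, Fintype.card_fin]
  have hns : ∀ i, nb (fun i' => f (ε i')) (fun i' => a (ε i')) i ≤ p i := by
    intro i
    refine le_trans ?_ (hkp i)
    unfold nb
    refine card_le_card fun x hx => ?_
    obtain ⟨-, i', h1, h2⟩ := mem_filter.1 hx
    refine mem_filter.2 ⟨mem_univ _, ε i', K₁ i', h1, mrg_e h K₁ i', ?_⟩
    rw [hcK]
    exact h2
  have hck : ∑ i, Sum.elim cd (fun _ => 0) (q i) + k = c := by
    have h1 : ∀ i, Sum.elim cd (fun _ => 1) (mrg q K₁ i) = Sum.elim cd (fun _ => 0) (q i) +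
        if (mrg q K₁ i).isRight = true then 1 else 0 := by
      intro i
      unfold mrg
      rcases q i with b | i' <;> simp
    rw [← hc]
    simp_rw [h1]
    rw [sum_add_distrib, ← card_filter, hcard]
  obtain ⟨e, he⟩ : ∃ e, e = ∑ i, Sum.elim cd (fun _ => 0) (q i) := ⟨_, rfl⟩
  by_cases hje : j ≤ e
  · refine rhoC_cspN (W := T.ins2 cc (fun i' => a (ε i')) 0) (fun g hg =>
      rho_coniv2 T cc d h cd a hd 0 j (by rw [← he]; omega) hg) ?_
    exact top_cspN (fun g => ins20 T cc _ g) _
  -- the main case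
  obtain ⟨l, hl⟩ : ∃ l, l = (j - e + 1) / 2 := ⟨_, rfl⟩
  refine rhoC_cspN (W := T.ins2 cc (fun i' => a (ε i')) l) (fun g hg =>
      rho_coniv2 T cc d h cd a hd l j (by rw [← he]; omega) hg) ?_
  have hcomm : ∀ v : (Fin m → Fin s ⊕ Fin n) → ℂ,
      LinearMap.funLeft ℂ ℂ (mrg q) (actL (T.xS s) v) =
        actL T.x (LinearMap.funLeft ℂ ℂ (mrg (n := n) q) v) := fun v => (act_comm T h v).symm
  have hle : M.map (LinearMap.funLeft ℂ ℂ (mrg (n := n) q)) ≤
      cspN (T.ins2 cc (fun i' => a (ε i')) l) := by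
    refine H k b l (fun i' => a (ε i')) (fun i' => f (ε i')) (fun i i' hi => hfa _ _ hi) hns
      _ ?_ ?_ ?_ ?_
    · intro v hv K hK i'
      obtain ⟨v, hv, rfl⟩ := hv
      have h1 := (hMc v hv (mrg q K) hK).1 (ε i')
      rw [mrg_e h] at h1
      exact h1
    · intro v hv π' hπ' K
      obtain ⟨v, hv, rfl⟩ := hv
      obtain ⟨ι, hι⟩ : ∃ ι : Fin k ↪ Fin m, ∀ i', ι i' = ε i' :=
        ⟨⟨ε, h.mono.injective⟩, fun _ => rfl⟩
      have p1 : ∀ i', (π'.viaEmbedding ι) (ε i') = ε (π' i') := by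
        intro i'
        rw [← hι i', ← hι (π' i')]
        exact Equiv.Perm.viaEmbedding_apply π' ι i'
      have p2 : ∀ i b', q i = Sum.inl b' → (π'.viaEmbedding ι) i = i := by
        intro i b' hb'
        refine Equiv.Perm.viaEmbedding_apply_of_notMem π' ι i ?_
        rintro ⟨i', hi'⟩
        rw [← hi', hι, h.qe] at hb'
        cases hb'
      have p3 : ∀ i, f ((π'.viaEmbedding ι) i) = f i := by
        intro i
        rcases hq : q i with b' | i'
        · rw [p2 i b' hq]
        · rw [← h.eq i i' hq, p1]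
          exact hπ' i'
      have p4 : mrg (n := n) q (fun j => K (π' j)) = fun i => mrg q K ((π'.viaEmbedding ι) i) := by
        funext i
        rcases hq : q i with b' | i'
        · rw [p2 i b' hq]
          unfold mrg
          rw [hq]
          rfl
        · rw [← h.eq i i' hq, p1, mrg_e h, mrg_e h]
      have p5 := hMf v hv (π'.viaEmbedding ι) p3 (mrg q K)
      rw [← p4] at p5
      exact p5
    · intro Z hZ1 hZ2 v hv
      obtain ⟨v, hv, rfl⟩ := hv
      exact ⟨act (fromBlocks 0 0 0 Z) v, hMZ Z hZ1 hZ2 v hv, (act_commZ h Z v).symm⟩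
    · intro a ha0 ha v hv
      refine quot (actL (T.xS s)) (actL T.x) (LinearMap.funLeft ℂ ℂ (mrg q)) hcomm M
        hMs (a : ℂ) ?_ v hv
      refine hMa a ha0 ?_
      have h1 : (c : ℤ) = e + k := by rw [he]; exact_mod_cast hck.symm
      omega
  exact hle ⟨w, hw, rfl⟩

end

end Pool.Agent.W538.GX
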